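import Pool.Agent.W353.NF.Emb
import Pool.Agent.W353.L1.Final

/-! The action of the absolute Galois group on the embeddings of a number field, and its fixed point
counts as class functions. -/

set_option autoImplicit false

namespace Pool.Agent.W353.NF

open Complex Filter Topology ComplexConjugate NumberField IsDedekindDomain
  Pool.Agent.W401.Cheb Pool.Agent.W540.BE Pool.Agent.W353.L1

section
variable (K F : Type) [Field K] [NumberField K] [Field F] [NumberField F] [Algebra K F]

/-- the action on the embeddings -/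
noncomputable def act : GK K →* Equiv.Perm (F →ₐ[K] AlgebraicClosure K) where
  toFun σ :=
    { toFun := fun i => (σ : AlgebraicClosure K →ₐ[K] AlgebraicClosure K).comp i
      invFun := fun i => ((σ⁻¹ : GK K) : AlgebraicClosure K →ₐ[K] AlgebraicClosure K).comp i
      left_inv := fun i => AlgHom.ext fun x => σ.symm_apply_apply (i x)
      right_inv := fun i => AlgHom.ext fun x => σ.apply_symm_apply (i x) }
  map_one' := Equiv.ext fun _ => AlgHom.ext fun _ => rfl
  map_mul' _ _ := Equiv.ext fun _ => AlgHom.ext fun _ => rfl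

theorem act_apply (σ : GK K) (i : F →ₐ[K] AlgebraicClosure K) :
    act K F σ i = (σ : AlgebraicClosure K →ₐ[K] AlgebraicClosure K).comp i := rfl

/-- the number of fixed embeddings -/
noncomputable def fixn (σ : GK K) : ℕ :=
  Nat.card {i : F →ₐ[K] AlgebraicClosure K // act K F σ i = i}

theorem fixn_conj (σ ρ : GK K) : fixn K F (ρ * σ * ρ⁻¹) = fixn K F σ := by
  unfold fixn
  refine Nat.card_congr (Equiv.subtypeEquiv (act K F ρ⁻¹) fun i => ?_)
  rw [map_mul, map_mul, Equiv.Perm.mul_apply, Equiv.Perm.mul_apply, map_inv]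
  constructor
  · intro h
    rw [Equiv.Perm.eq_inv_iff_eq]
    exact h
  · intro h
    rw [Equiv.Perm.eq_inv_iff_eq] at h
    exact h

theorem fixn_inv (σ : GK K) : fixn K F σ⁻¹ = fixn K F σ := by
  unfold fixn
  refine Nat.card_congr (Equiv.subtypeEquivRight fun i => ?_)
  rw [map_inv]
  constructor
  · intro h
    rw [Equiv.Perm.inv_eq_iff_eq] at h
    exact h.symm
  · intro h
    rw [Equiv.Perm.inv_eq_iff_eq]
    exact h.symm

theorem fixn_mul_ker (σ u : GK K) (hu : act K F u = 1) : fixn K F (σ * u) = fixn K F σ := by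
  unfold fixn
  rw [map_mul, hu, mul_one]

/-- the kernel of the action is open -/
theorem ker_act_open : IsOpen ((act K F).ker : Set (GK K)) := by
  have h1 : ((act K F).ker : Set (GK K)) =
      ⋂ i : F →ₐ[K] AlgebraicClosure K, (i.fieldRange.fixingSubgroup : Set (GK K)) := by
    ext σ
    rw [SetLike.mem_coe, MonoidHom.mem_ker, Set.mem_iInter]
    constructor
    · intro h i
      rw [SetLike.mem_coe, IntermediateField.mem_fixingSubgroup_iff]
      rintro _ ⟨x, rfl⟩
      have h2 : act K F σ i = i := by rw [h]; rfl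
      exact DFunLike.congr_fun h2 x
    · intro h
      refine Equiv.ext fun i => AlgHom.ext fun x => ?_
      have h2 := h i
      rw [SetLike.mem_coe, IntermediateField.mem_fixingSubgroup_iff] at h2
      exact h2 (i x) ⟨x, rfl⟩
  rw [h1]
  refine isOpen_iInter_of_finite fun i => ?_
  have hfd : FiniteDimensional K i.fieldRange := by
    have := i.toLinearMap.finiteDimensional_range
    exact this
  exact IntermediateField.fixingSubgroup_isOpen i.fieldRange

end

section
variable {K : Type} [Field K] [NumberField K]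

/-- a real class function of the absolute Galois group as a class function of a finite quotient -/
noncomputable def toCF (U : Subgroup (GK K)) [U.Normal] (ψ : GK K → ℝ)
    (hU : ∀ σ, ∀ u ∈ U, ψ (σ * u) = ψ σ) (hc : ∀ σ ρ, ψ (ρ * σ * ρ⁻¹) = ψ σ)
    (hi : ∀ σ, ψ σ⁻¹ = ψ σ) : CF U where
  f q := ((ψ q.out : ℝ) : ℂ)
  cls a x := by
    have h1 : ∀ (q : GK K ⧸ U) (σ : GK K), QuotientGroup.mk σ = q → ψ q.out = ψ σ := by
      intro q σ h
      have h2 : (QuotientGroup.mk σ : GK K ⧸ U) = QuotientGroup.mk q.out := by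
        rw [QuotientGroup.out_eq', h]
      rw [QuotientGroup.eq] at h2
      have h3 := hU σ _ h2
      rw [mul_inv_cancel_left] at h3
      exact h3
    congr 1
    rw [h1 (x * a * x⁻¹) (x.out * a.out * x.out⁻¹) (by
      rw [QuotientGroup.mk_mul, QuotientGroup.mk_mul, QuotientGroup.mk_inv,
        QuotientGroup.out_eq', QuotientGroup.out_eq']), hc]
  herm q := by
    have h1 : ∀ (q : GK K ⧸ U) (σ : GK K), QuotientGroup.mk σ = q → ψ q.out = ψ σ := by
      intro q σ h
      have h2 : (QuotientGroup.mk σ : GK K ⧸ U) = QuotientGroup.mk q.out := by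
        rw [QuotientGroup.out_eq', h]
      rw [QuotientGroup.eq] at h2
      have h3 := hU σ _ h2
      rw [mul_inv_cancel_left] at h3
      exact h3
    rw [Complex.conj_ofReal]
    congr 1
    rw [h1 q⁻¹ (q.out)⁻¹ (by rw [QuotientGroup.mk_inv, QuotientGroup.out_eq']), hi]

theorem toCF_mk (U : Subgroup (GK K)) [U.Normal] (ψ : GK K → ℝ)
    (hU : ∀ σ, ∀ u ∈ U, ψ (σ * u) = ψ σ) (hc : ∀ σ ρ, ψ (ρ * σ * ρ⁻¹) = ψ σ)
    (hi : ∀ σ, ψ σ⁻¹ = ψ σ) (σ : GK K) :
    (toCF U ψ hU hc hi).f (QuotientGroup.mk σ) = ((ψ σ : ℝ) : ℂ) := by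
  have h2 : (QuotientGroup.mk σ : GK K ⧸ U) = QuotientGroup.mk (QuotientGroup.mk σ :
      GK K ⧸ U).out := by
    rw [QuotientGroup.out_eq']
  rw [QuotientGroup.eq] at h2
  have h3 := hU σ _ h2
  rw [mul_inv_cancel_left] at h3
  change ((ψ (QuotientGroup.mk σ : GK K ⧸ U).out : ℝ) : ℂ) = _
  rw [h3]

end

end Pool.Agent.W353.NF
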