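import Pool.Agent.W353.NF.Size
import Pool.Agent.H341R2.NF.TwistEC

/-! The sizes over a number field in terms of fixed point counts. -/

set_option autoImplicit false

namespace Pool.Agent.W353.NF

open Complex Filter Topology ComplexConjugate NumberField IsDedekindDomain Asymptotics
  Pool.Agent.W401.Cheb Pool.Agent.W540.BE Pool.Agent.W353.L1
open Pool.Agent.W353.TP (HX sysH push push_abs_le qh qh_abs qh_eq res LL LL_tendsto E_H bdd_isLittleO
  lam0_sub)
open Pool.Agent.W353.AB (Sy vq)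
open Pool.Agent.H921R2.TatePole (kerPrime)
open Pool.Agent.H341R2 (lam lam_tendsto sysK)

section
variable {K F : Type} [Field K] [NumberField K] [Field F] [NumberField F] [Algebra K F]

theorem qh_one (x : HX F) : qh (1 : 𝓞 F) x = 1 := by
  rcases x with ⟨p, ψ⟩
  have : Fact (p : ℕ).Prime := ⟨p.2⟩
  rw [qh_eq, map_one, map_one]
  norm_num

theorem push_one (x : HX K) : push K (qh (1 : 𝓞 F)) x =
    Nat.card {ψ : 𝓞 F →+* ZMod (x.1 : ℕ) // ψ.comp (algebraMap (𝓞 K) (𝓞 F)) = x.2} := by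
  classical
  unfold push
  rw [Finset.sum_congr rfl fun ψ _ => qh_one (F := F) ⟨x.1, ψ⟩, Finset.sum_const, nsmul_eq_mul,
    mul_one, Nat.card_eq_fintype_card, Fintype.card_subtype]
  rfl

variable (K F) in
/-- the number of extensions of a homomorphism is the number of fixed embeddings -/
theorem push_fix : ∃ S : Finset (HeightOneSpectrum (𝓞 K)), ∀ x : HX K, vx x ∉ S →
    ∀ σ : GK K, IsFrob (vx x) σ → push K (qh (1 : 𝓞 F)) x = fixn K F σ := by
  classical
  obtain ⟨e, he, h⟩ := separate_all K F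
  have hfin : {v : HeightOneSpectrum (𝓞 K) | e ∈ v.asIdeal}.Finite := Pool.Agent.H341R2.EC.finite_mem he
  refine ⟨hfin.toFinset, fun x hx σ hσ => ?_⟩
  rw [Set.Finite.mem_toFinset, Set.mem_ofPred_eq] at hx
  have : Fact (x.1 : ℕ).Prime := ⟨x.1.2⟩
  rw [push_one, ← card_ext (F := F) (vx x) e h hx σ hσ x.2 (vx_asIdeal x).symm]
  rfl

theorem fixn_le (σ : GK K) : (fixn K F σ : ℝ) ≤ Module.finrank ℚ F := by
  have h1 : fixn K F σ ≤ Nat.card (F →ₐ[K] AlgebraicClosure K) := by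
    unfold fixn
    exact Nat.card_le_card_of_injective Subtype.val Subtype.val_injective
  have h2 : Nat.card (F →ₐ[K] AlgebraicClosure K) = Module.finrank K F := by
    rw [Nat.card_eq_fintype_card]
    exact AlgHom.card K F (AlgebraicClosure K)
  have h3 : Module.finrank K F ≤ Module.finrank ℚ F := by
    rw [← Module.finrank_mul_finrank ℚ K F]
    exact Nat.le_mul_of_pos_left _ Module.finrank_pos
  exact_mod_cast h1.trans (h2.le.trans h3)

/-- real part of `q^{-iτ}` -/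
noncomputable def cz (τ : ℝ) (v : HeightOneSpectrum (𝓞 K)) : ℝ := (zz τ v).re

theorem abs_cz (τ : ℝ) (v : HeightOneSpectrum (𝓞 K)) : |cz τ v| ≤ 1 := by
  unfold cz
  exact (Complex.abs_re_le_norm _).trans (norm_zz τ v).le

/-- the sum of the components -/
noncomputable def TT (𝒮 : Sy K) (x : HX K) : ℝ := ∑ j ∈ 𝒮.P, (𝒮.T j x).re

theorem abs_TT (𝒮 : Sy K) (x : HX K) : |TT 𝒮 x| ≤ ∑ j ∈ 𝒮.P, 𝒮.b j := by
  unfold TT
  refine (Finset.abs_sum_le_sum_abs _ _).trans (Finset.sum_le_sum fun j hj => ?_)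
  exact (Complex.abs_re_le_norm _).trans (𝒮.hT j hj x)

/-- **Sizes over `F` in terms of fixed embeddings.** -/
theorem size_fix (𝒮 : Sy K) (hreal : ∀ j ∈ 𝒮.P, ∀ x, (𝒮.T j x).im = 0)
    (σ : HeightOneSpectrum (𝓞 K) → GK K) (hσ : ∀ v, IsFrob v (σ v)) {τ : ℝ} {X : ℝ → ℝ}
    (hX : 𝒮.IsSize (F := F) (fun _ => 1) τ X) :
    SzH (TT 𝒮) (fun v => fixn K F (σ v) * cz τ v) X := by
  classical
  obtain ⟨S, hS⟩ := push_fix K F
  set n : ℝ := (Module.finrank ℚ F : ℝ) with hn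
  set N : ℝ := ∑ j ∈ 𝒮.P, 𝒮.b j with hN
  have hN0 : 0 ≤ N := Finset.sum_nonneg fun j hj => 𝒮.hb j hj
  have hn0 : 0 ≤ n := by positivity
  -- the difference
  have hdiff : ∀ x : HX K, |TT 𝒮 x * (push K (qh (1 : 𝓞 F)) x * cz τ (vx x)) -
      TT 𝒮 x * (fixn K F (σ (vx x)) * cz τ (vx x))| ≤
      (N * (2 * n)) * (if vx x ∈ S then 1 else 0) := by
    intro x
    by_cases h : vx x ∈ S
    · rw [if_pos h, mul_one, ← mul_sub, ← sub_mul, abs_mul, abs_mul]
      have h1 : |push K (qh (1 : 𝓞 F)) x| ≤ n := by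
        have := push_abs_le (K := K) (qh_abs (1 : 𝓞 F)) x
        rwa [mul_one] at this
      have h2 : |(fixn K F (σ (vx x)) : ℝ)| ≤ n := by
        rw [abs_of_nonneg (Nat.cast_nonneg _)]
        exact fixn_le _
      have h3 : |push K (qh (1 : 𝓞 F)) x - (fixn K F (σ (vx x)) : ℝ)| ≤ 2 * n := by
        refine (abs_sub _ _).trans ?_
        linarith
      have h4 : |push K (qh (1 : 𝓞 F)) x - (fixn K F (σ (vx x)) : ℝ)| * |cz τ (vx x)| ≤
          2 * n * 1 := mul_le_mul h3 (abs_cz _ _) (abs_nonneg _) (by positivity)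
      rw [mul_one] at h4
      exact mul_le_mul (abs_TT 𝒮 x) h4 (by positivity) hN0
    · rw [hS x h _ (hσ _), sub_self, abs_zero, if_neg h, mul_zero]
  obtain ⟨C, hC⟩ := EH_le (K := K)
    (φ := fun x => TT 𝒮 x * (push K (qh (1 : 𝓞 F)) x * cz τ (vx x)) -
      TT 𝒮 x * (fixn K F (σ (vx x)) * cz τ (vx x)))
    (g := fun v => (N * (2 * n)) * (if v ∈ S then 1 else 0)) (B := N * (2 * n))
    (fun v => by
      split_ifs
      · rw [mul_one, abs_of_nonneg (by positivity)]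
      · rw [mul_zero, abs_zero]; positivity) hdiff
  have hEP : ∀ ε : ℝ, 0 < ε → EP (nm K) ε (fun v => (N * (2 * n)) * (if v ∈ S then 1 else 0)) ≤
      S.card * (N * (2 * n)) := by
    intro ε hε
    refine (le_abs_self _).trans (EP_finsupp normSys S _ (fun v hv => ?_) _ (fun v => ?_) hε)
    · rw [if_neg hv, mul_zero]
    · split_ifs
      · rw [mul_one, abs_of_nonneg (by positivity)]
      · rw [mul_zero, abs_zero]; positivity
  have o1 : (fun ε => (sysH K).E ε (fun x => TT 𝒮 x * (push K (qh (1 : 𝓞 F)) x *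
      cz τ (vx x)) - TT 𝒮 x * (fixn K F (σ (vx x)) * cz τ (vx x)))) =o[𝓝[>] 0] LL := by
    refine bdd_isLittleO ⟨S.card * (N * (2 * n)) + C, ?_⟩
    filter_upwards [self_mem_nhdsWithin] with ε hε
    have h1 := hC ε hε
    have h2 := hEP ε hε
    exact h1.trans (add_le_add h2 (le_refl C))
  unfold Sy.IsSize at hX
  unfold SzH
  refine (hX.add o1).congr' ?_ (EventuallyEq.refl _ _)
  filter_upwards [self_mem_nhdsWithin] with ε hε
  have hε' : (0 : ℝ) < ε := hε
  have hb1 : ∀ x : HX K, |TT 𝒮 x * (push K (qh (1 : 𝓞 F)) x * cz τ (vx x))| ≤ N * (n * 1) := by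
    intro x
    rw [abs_mul, abs_mul]
    have h1 : |push K (qh (1 : 𝓞 F)) x| ≤ n := by
      have := push_abs_le (K := K) (qh_abs (1 : 𝓞 F)) x
      rwa [mul_one] at this
    exact mul_le_mul (abs_TT 𝒮 x) (mul_le_mul h1 (abs_cz _ _) (abs_nonneg _) hn0)
      (by positivity) hN0
  have hb2 : ∀ x : HX K, |(-1 : ℝ) * (TT 𝒮 x * (fixn K F (σ (vx x)) * cz τ (vx x)))| ≤
      N * (n * 1) := by
    intro x
    rw [abs_mul, abs_neg, abs_one, one_mul, abs_mul, abs_mul]
    have h1 : |(fixn K F (σ (vx x)) : ℝ)| ≤ n := by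
      rw [abs_of_nonneg (Nat.cast_nonneg _)]
      exact fixn_le _
    exact mul_le_mul (abs_TT 𝒮 x) (mul_le_mul h1 (abs_cz _ _) (abs_nonneg _) hn0)
      (by positivity) hN0
  -- the correlation
  have hcorr : 𝒮.corr (F := F) (fun _ => 1) τ ε =
      (sysH K).E ε (fun x => TT 𝒮 x * (push K (qh (1 : 𝓞 F)) x * cz τ (vx x))) := by
    have e1 : ∀ j ∈ 𝒮.P, ((sysH K).E ε fun x : HX K =>
        (𝒮.T j x * conj (vq K (𝒮.D (fun _ => (1 : 𝓞 F)) j) τ x)).re) =
        (sysH K).E ε (fun x : HX K => (𝒮.T j x).re *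
          (push K (qh (1 : 𝓞 F)) x * cz τ (vx x))) := by
      intro j hj
      congr 1
      funext x
      have e2 : 𝒮.D (fun _ => (1 : 𝓞 F)) j = 1 := Finset.prod_const_one
      have hcj : conj (((x.1 : ℕ) : ℂ) ^ ((τ : ℂ) * I)) = ((x.1 : ℕ) : ℂ) ^ (-((τ : ℂ) * I)) :=
        (sysH K).conj_cpow_I x τ
      have e3 : 𝒮.T j x = (((𝒮.T j x).re : ℝ) : ℂ) := by
        apply Complex.ext
        · simp
        · rw [Complex.ofReal_im, hreal j hj x]
      rw [e2]
      unfold vq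
      rw [map_mul, Complex.conj_ofReal, hcj, e3, Complex.re_ofReal_mul, Complex.re_ofReal_mul,
        Complex.ofReal_re]
      congr 2
      unfold cz zz
      rw [nm_vx]
    unfold Sy.corr
    rw [Finset.sum_congr rfl e1, ← (sysH K).E_sum hε' 𝒮.P _ (fun j => 𝒮.b j * (n * 1)) ?_]
    · congr 1
      funext x
      unfold TT
      rw [Finset.sum_mul]
    · intro j hj x
      rw [abs_mul, abs_mul]
      have h1 : |push K (qh (1 : 𝓞 F)) x| ≤ n := by
        have := push_abs_le (K := K) (qh_abs (1 : 𝓞 F)) x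
        rwa [mul_one] at this
      exact mul_le_mul ((Complex.abs_re_le_norm _).trans (𝒮.hT j hj x))
        (mul_le_mul h1 (abs_cz _ _) (abs_nonneg _) hn0) (by positivity) (𝒮.hb j hj)
  rw [hcorr]
  have e4 : (sysH K).E ε (fun x => TT 𝒮 x * (push K (qh (1 : 𝓞 F)) x *
      cz τ (vx x)) - TT 𝒮 x * (fixn K F (σ (vx x)) * cz τ (vx x))) =
      (sysH K).E ε (fun x => TT 𝒮 x * (push K (qh (1 : 𝓞 F)) x * cz τ (vx x))) -
      (sysH K).E ε (fun x => TT 𝒮 x * (fixn K F (σ (vx x)) * cz τ (vx x))) := by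
    have e5 := (sysH K).E_add hε' hb1 hb2
    rw [(sysH K).E_const_mul] at e5
    have e6 : (fun x : HX K => TT 𝒮 x * (push K (qh (1 : 𝓞 F)) x *
      cz τ (vx x)) - TT 𝒮 x * (fixn K F (σ (vx x)) * cz τ (vx x))) =
      fun x : HX K => TT 𝒮 x * (push K (qh (1 : 𝓞 F)) x * cz τ (vx x)) +
        (-1 : ℝ) * (TT 𝒮 x * (fixn K F (σ (vx x)) * cz τ (vx x))) := by
      funext x
      ring
    exact (congrArg ((sysH K).E ε) e6).trans (e5.trans (by ring))
  rw [e4]
  ring

end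

end Pool.Agent.W353.NF
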